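import Mathlib

/-!
# Composition operators on smooth functions: a run-away diffeomorphism gives a hypercyclic operator
-/

set_option autoImplicit false

namespace Pool.Agent.R805.WCO

open Set Filter Topology
open scoped ContDiff

/-- `ℝ^d` -/
abbrev E (d : ℕ) := EuclideanSpace ℝ (Fin d)

variable {d : ℕ} {𝕂 : Type} [RCLike 𝕂]

/-- the partial derivative `∂_{α 0} ... ∂_{α (k-1)} f (x)` -/
noncomputable def pd (k : ℕ) (α : Fin k → Fin d) (f : E d → 𝕂) (x : E d) : 𝕂 :=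
  iteratedFDeriv ℝ k f x (fun i => EuclideanSpace.single (α i) (1 : ℝ))

/-- `|∂^α f - ∂^α g| < ε` on `L` for all `α` of order at most `n` -/
def Near (L : Set (E d)) (n : ℕ) (ε : ℝ) (f g : E d → 𝕂) : Prop :=
  ∀ k ≤ n, ∀ α : Fin k → Fin d, ∀ x ∈ L, ‖pd k α f x - pd k α g x‖ < ε

lemma pd_congr {k : ℕ} {α : Fin k → Fin d} {f g : E d → 𝕂} {x : E d} (h : f =ᶠ[𝓝 x] g) :
    pd k α f x = pd k α g x := by
  unfold pd
  rw [(Filter.EventuallyEq.iteratedFDeriv ℝ h k).eq_of_nhds]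

lemma continuousOn_pd {Ω : Set (E d)} (hΩ : IsOpen Ω) {f : E d → 𝕂} (hf : ContDiffOn ℝ ∞ f Ω)
    (k : ℕ) (α : Fin k → Fin d) : ContinuousOn (pd k α f) Ω := by
  have h1 : ContinuousOn (iteratedFDerivWithin ℝ k f Ω) Ω :=
    hf.continuousOn_iteratedFDerivWithin (by exact_mod_cast le_top) hΩ.uniqueDiffOn
  have h2 : ContinuousOn (iteratedFDeriv ℝ k f) Ω :=
    h1.congr (fun x hx => (iteratedFDerivWithin_of_isOpen k hΩ hx).symm)
  exact (ContinuousMultilinearMap.apply ℝ (fun _ : Fin k => E d) 𝕂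
    (fun i => EuclideanSpace.single (α i) (1 : ℝ))).continuous.comp_continuousOn h2

lemma exists_dense_seq (Ω : Set (E d)) (hΩ : IsOpen Ω) (K : ℕ → Set (E d))
    (hK : ∀ j, IsCompact (K j)) (hKΩ : ∀ j, K j ⊆ Ω)
    (hex : ∀ L, IsCompact L → L ⊆ Ω → ∃ j, L ⊆ K j) :
    ∃ u : ℕ → E d → 𝕂, (∀ i, ContDiffOn ℝ ∞ (u i) Ω) ∧
      ∀ f, ContDiffOn ℝ ∞ f Ω → ∀ L, IsCompact L → L ⊆ Ω → ∀ (n : ℕ) (ε : ℝ), 0 < ε →
        ∃ i, Near L n ε (u i) f := by
  classical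
  have hcs : ∀ j, CompactSpace (K j) := fun j => isCompact_iff_compactSpace.1 (hK j)
  let X : Type := {f : E d → 𝕂 // ContDiffOn ℝ ∞ f Ω}
  let Idx : Type := Σ (_ : ℕ) (k : ℕ), (Fin k → Fin d)
  let Φ : X → ∀ p : Idx, C(K p.1, 𝕂) := fun f p =>
    ⟨fun x => pd p.2.1 p.2.2 f.1 x.1, by
      have h1 := (continuousOn_pd hΩ f.2 p.2.1 p.2.2).mono (hKΩ p.1)
      exact continuousOn_iff_continuous_domRestrict.1 h1⟩
  let _ : TopologicalSpace X := TopologicalSpace.induced Φ inferInstance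
  have hΦ : Continuous Φ := continuous_induced_dom
  have : SecondCountableTopology X := TopologicalSpace.secondCountableTopology_induced _ _ Φ
  have : Nonempty X := ⟨⟨fun _ => 0, contDiffOn_const⟩⟩
  refine ⟨fun i => (TopologicalSpace.denseSeq X i).1,
    fun i => (TopologicalSpace.denseSeq X i).2, ?_⟩
  intro f hf L hL hLΩ n ε hε
  obtain ⟨j, hj⟩ := hex L hL hLΩ
  let f' : X := ⟨f, hf⟩
  let O : Set X := ⋂ q : Σ k : Fin (n + 1), (Fin k → Fin d),
    (fun g : X => Φ g ⟨j, q.1, q.2⟩) ⁻¹' Metric.ball (Φ f' ⟨j, q.1, q.2⟩) ε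
  have hO : IsOpen O := by
    apply isOpen_iInter_of_finite
    intro q
    exact Metric.isOpen_ball.preimage ((continuous_apply _).comp hΦ)
  have hfO : f' ∈ O := by
    simp only [O, mem_iInter, mem_preimage]
    intro q
    exact Metric.mem_ball_self hε
  obtain ⟨i, hi⟩ := (TopologicalSpace.denseRange_denseSeq X).exists_mem_open hO ⟨f', hfO⟩
  refine ⟨i, ?_⟩
  intro k hk α x hx
  simp only [O, mem_iInter, mem_preimage] at hi
  have h1 := hi ⟨⟨k, by omega⟩, α⟩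
  rw [Metric.mem_ball] at h1
  have h2 := (ContinuousMap.dist_apply_le_dist (f := Φ (TopologicalSpace.denseSeq X i) ⟨j, k, α⟩)
    (g := Φ f' ⟨j, k, α⟩) (⟨x, hj hx⟩ : K j))
  have h3 := lt_of_le_of_lt h2 h1
  rw [dist_eq_norm] at h3
  exact h3

lemma exists_exhaustion (Ω : Set (E d)) (hΩ : IsOpen Ω) (hΩc : (Ωᶜ).Nonempty) :
    ∃ K : ℕ → Set (E d), (∀ j, IsCompact (K j)) ∧ (∀ j, K j ⊆ Ω) ∧ Monotone K ∧
      ∀ L, IsCompact L → L ⊆ Ω → ∃ j, L ⊆ interior (K j) := by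
  refine ⟨fun j => Metric.closedBall 0 j ∩ {x | 1 / ((j : ℝ) + 1) ≤ Metric.infDist x Ωᶜ},
    ?_, ?_, ?_, ?_⟩
  · intro j
    exact (isCompact_closedBall _ _).inter_right
      (isClosed_le continuous_const (Metric.continuous_infDist_pt _))
  · rintro j x ⟨_, hx⟩
    by_contra hc
    rw [Set.mem_ofPred_eq, Metric.infDist_zero_of_mem hc] at hx
    have : 0 < 1 / ((j : ℝ) + 1) := by positivity
    linarith
  · rintro i j hij x ⟨h1, h2⟩
    refine ⟨Metric.closedBall_subset_closedBall (by exact_mod_cast hij) h1, ?_⟩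
    rw [Set.mem_ofPred_eq] at h2 ⊢
    refine le_trans ?_ h2
    apply one_div_le_one_div_of_le (by positivity)
    have : (i : ℝ) ≤ j := by exact_mod_cast hij
    linarith
  · intro L hL hLΩ
    obtain ⟨r, hr⟩ := hL.isBounded.subset_closedBall 0
    have h1 : ∃ δ > 0, ∀ x ∈ L, δ ≤ Metric.infDist x Ωᶜ := by
      rcases L.eq_empty_or_nonempty with h | h
      · exact ⟨1, one_pos, by simp [h]⟩
      · obtain ⟨x, hx, hmin⟩ := hL.exists_isMinOn h
          (Metric.continuous_infDist_pt (Ωᶜ)).continuousOn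
        refine ⟨Metric.infDist x Ωᶜ, ?_, fun y hy => hmin hy⟩
        have h2 : x ∉ closure Ωᶜ := by
          rw [hΩ.isClosed_compl.closure_eq]
          exact fun hc => hc (hLΩ hx)
        exact (Metric.infDist_pos_iff_notMem_closure hΩc).1 h2
    obtain ⟨δ, hδ, hδL⟩ := h1
    obtain ⟨j, hj⟩ := exists_nat_gt (max r (1 / δ))
    refine ⟨j, ?_⟩
    have hj1 : r < j := lt_of_le_of_lt (le_max_left _ _) hj
    have hj2 : 1 / δ < j := lt_of_le_of_lt (le_max_right _ _) hj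
    have hopen : IsOpen (Metric.ball (0 : E d) j ∩
        {x | 1 / ((j : ℝ) + 1) < Metric.infDist x Ωᶜ}) :=
      Metric.isOpen_ball.inter (isOpen_lt continuous_const (Metric.continuous_infDist_pt _))
    refine subset_trans ?_ (interior_maximal (t := Metric.ball (0 : E d) j ∩
        {x | 1 / ((j : ℝ) + 1) < Metric.infDist x Ωᶜ}) ?_ hopen)
    · intro x hx
      refine ⟨?_, ?_⟩
      · rw [Metric.mem_ball]
        exact lt_of_le_of_lt (Metric.mem_closedBall.1 (hr hx)) hj1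
      · rw [Set.mem_ofPred_eq]
        refine lt_of_lt_of_le ?_ (hδL x hx)
        rw [div_lt_iff₀ hδ] at hj2
        rw [div_lt_iff₀ (by positivity)]
        nlinarith
    · rintro x ⟨h1, h2⟩
      rw [Set.mem_ofPred_eq] at h2
      refine ⟨Metric.ball_subset_closedBall h1, ?_⟩
      rw [Set.mem_ofPred_eq]
      exact h2.le

lemma iterate_contDiffOn {Ω : Set (E d)} {ψ : E d → E d} (hψ : ContDiffOn ℝ ∞ ψ Ω)
    (mψ : MapsTo ψ Ω Ω) (n : ℕ) : ContDiffOn ℝ ∞ (ψ^[n]) Ω := by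
  induction n with
  | zero => exact contDiffOn_id
  | succ n ih =>
    rw [Function.iterate_succ']
    exact hψ.comp ih (mψ.iterate n)

lemma iterate_inv {Ω : Set (E d)} {ψ φ : E d → E d} (mψ : MapsTo ψ Ω Ω)
    (h : ∀ x ∈ Ω, φ (ψ x) = x) (n : ℕ) (x : E d) (hx : x ∈ Ω) : φ^[n] (ψ^[n] x) = x := by
  induction n with
  | zero => rfl
  | succ n ih =>
    rw [Function.iterate_succ_apply, Function.iterate_succ_apply', h _ (mψ.iterate n hx), ih]

theorem hypercyclic_of_runaway (Ω : Set (E d)) (hΩ : IsOpen Ω) (hΩc : (Ωᶜ).Nonempty)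
    (ψ φ : E d → E d) (hψ : ContDiffOn ℝ ∞ ψ Ω) (hφ : ContDiffOn ℝ ∞ φ Ω)
    (mψ : MapsTo ψ Ω Ω) (mφ : MapsTo φ Ω Ω) (hφψ : ∀ x ∈ Ω, φ (ψ x) = x)
    (hrun : ∀ L, IsCompact L → L ⊆ Ω → ∃ n, Disjoint (ψ^[n] '' L) L) :
    ∃ g : E d → 𝕂, ContDiffOn ℝ ∞ g Ω ∧ ∀ f, ContDiffOn ℝ ∞ f Ω → ∀ L, IsCompact L → L ⊆ Ω →
      ∀ (n : ℕ) (ε : ℝ), 0 < ε → ∃ N : ℕ, Near L n ε (fun x => g (ψ^[N] x)) f := by
  classical
  obtain ⟨K, hK, hKΩ, hKm, hKex⟩ := exists_exhaustion Ω hΩ hΩc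
  obtain ⟨u, hu, hud⟩ := exists_dense_seq (𝕂 := 𝕂) Ω hΩ K hK hKΩ
    (fun L hL hLΩ => (hKex L hL hLΩ).imp fun j hj => hj.trans interior_subset)
  let T := {S : Set (E d) // IsCompact S ∧ S ⊆ Ω}
  have step : ∀ (j : ℕ) (S : T), ∃ p : ℕ × Set (E d) × (E d → ℝ),
      IsCompact p.2.1 ∧ p.2.1 ⊆ Ω ∧ Disjoint p.2.1 (K j ∪ S.1) ∧ ContDiff ℝ ∞ p.2.2 ∧
      (∀ᶠ x in 𝓝ˢ (ψ^[p.1] '' K j), p.2.2 x = 1) ∧ (∀ x ∉ p.2.1, p.2.2 x = 0) ∧
      ψ^[p.1] '' K j ⊆ interior p.2.1 := by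
    intro j S
    have hM : IsCompact (K j ∪ S.1) := (hK j).union S.2.1
    have hMΩ : K j ∪ S.1 ⊆ Ω := union_subset (hKΩ j) S.2.2
    obtain ⟨n, hn⟩ := hrun _ hM hMΩ
    have hc : IsCompact (ψ^[n] '' K j) :=
      (hK j).image_of_continuousOn (((iterate_contDiffOn hψ mψ n).continuousOn).mono (hKΩ j))
    have hsub : ψ^[n] '' K j ⊆ Ω ∩ (K j ∪ S.1)ᶜ := by
      rintro _ ⟨x, hx, rfl⟩
      refine ⟨mψ.iterate n (hKΩ j hx), fun hh => ?_⟩
      exact Set.disjoint_left.1 hn ⟨x, Or.inl hx, rfl⟩ hh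
    obtain ⟨C, hC, hKC, hCU⟩ := exists_compact_between hc
      (hΩ.inter hM.isClosed.isOpen_compl) hsub
    obtain ⟨f, hf1, hf0, _⟩ := exists_contMDiffMap_one_nhds_of_subset_interior
      (modelWithCornersSelf ℝ (E d)) (n := ⊤) hc.isClosed hKC
    refine ⟨⟨n, C, f⟩, hC, fun x hx => (hCU hx).1, ?_, ?_, hf1, hf0, hKC⟩
    · rw [Set.disjoint_left]
      intro x hx
      exact (hCU hx).2
    · have := f.contMDiff
      exact this.contDiff
  choose p hp using step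
  let S : ℕ → T := fun j => Nat.rec ⟨∅, isCompact_empty, empty_subset _⟩
    (fun j S => ⟨S.1 ∪ (p j S).2.1, S.2.1.union (hp j S).1, union_subset S.2.2 (hp j S).2.1⟩) j
  have hS : ∀ j, (S (j + 1)).1 = (S j).1 ∪ (p j (S j)).2.1 := fun j => rfl
  set nn : ℕ → ℕ := fun j => (p j (S j)).1 with hnn
  set C : ℕ → Set (E d) := fun j => (p j (S j)).2.1 with hCdef
  set χ : ℕ → E d → ℝ := fun j => (p j (S j)).2.2 with hχdef
  have hC2 : ∀ j, Disjoint (C j) (K j ∪ (S j).1) := fun j => (hp j (S j)).2.2.1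
  have hχs : ∀ j, ContDiff ℝ ∞ (χ j) := fun j => (hp j (S j)).2.2.2.1
  have hχ1 : ∀ j, ∀ᶠ x in 𝓝ˢ (ψ^[nn j] '' K j), χ j x = 1 := fun j => (hp j (S j)).2.2.2.2.1
  have hχ0 : ∀ j, ∀ x ∉ C j, χ j x = 0 := fun j => (hp j (S j)).2.2.2.2.2.1
  have hKC : ∀ j, ψ^[nn j] '' K j ⊆ interior (C j) := fun j => (hp j (S j)).2.2.2.2.2.2
  have hSm : ∀ l j, l < j → C l ⊆ (S j).1 := by
    intro l j hlj
    induction j with
    | zero => omega
    | succ j ih =>
      rw [hS]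
      rcases Nat.lt_succ_iff_lt_or_eq.1 hlj with h | h
      · exact (ih h).trans subset_union_left
      · subst h
        exact subset_union_right
  have hdisj : ∀ l j, l ≠ j → ∀ x ∈ C j, x ∉ C l := by
    intro l j hlj x hxj hxl
    rcases lt_or_gt_of_ne hlj with h | h
    · exact Set.disjoint_left.1 (hC2 j) hxj (Or.inr (hSm l j h hxl))
    · exact Set.disjoint_left.1 (hC2 l) hxl (Or.inr (hSm j l h hxj))
  set F : ℕ → E d → 𝕂 := fun j => u (Nat.unpair j).1 with hF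
  set term : ℕ → E d → 𝕂 := fun j x => χ j x • F j (φ^[nn j] x) with hterm
  have hterm0 : ∀ j x, x ∉ C j → term j x = 0 := by
    intro j x hx
    simp only [hterm, hχ0 j x hx, zero_smul]
  have htermS : ∀ j, ContDiffOn ℝ ∞ (term j) Ω := by
    intro j
    exact (hχs j).contDiffOn.smul
      ((hu (Nat.unpair j).1).comp (iterate_contDiffOn hφ mφ (nn j)) (mφ.iterate (nn j)))
  set g : E d → 𝕂 := fun x => ∑' j, term j x with hg
  have hgloc : ∀ i, ∀ y ∈ K i, g y = ∑ j ∈ Finset.range i, term j y := by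
    intro i y hy
    apply tsum_eq_sum
    intro j hj
    rw [Finset.mem_range, not_lt] at hj
    apply hterm0
    intro hc
    exact Set.disjoint_left.1 (hC2 j) hc (Or.inl (hKm hj hy))
  refine ⟨g, ?_, ?_⟩
  · intro x hx
    obtain ⟨i, hi⟩ := hKex {x} isCompact_singleton (singleton_subset_iff.2 hx)
    rw [singleton_subset_iff, mem_interior_iff_mem_nhds] at hi
    have h1 : g =ᶠ[𝓝 x] fun y => ∑ j ∈ Finset.range i, term j y :=
      Filter.eventually_of_mem hi (fun y hy => hgloc i y hy)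
    have h2 : ContDiffAt ℝ ∞ (fun y => ∑ j ∈ Finset.range i, term j y) x :=
      ContDiffAt.sum fun j _ => (htermS j).contDiffAt (hΩ.mem_nhds hx)
    exact (h2.congr_of_eventuallyEq h1).contDiffWithinAt
  · intro f hf L hL hLΩ n ε hε
    obtain ⟨i, hi⟩ := hud f hf L hL hLΩ n ε hε
    obtain ⟨j₀, hj₀⟩ := hKex L hL hLΩ
    set j := Nat.pair i j₀ with hj
    have hjj : j₀ ≤ j := Nat.right_le_pair i j₀
    have hFj : F j = u i := by
      simp only [hF, hj, Nat.unpair_pair]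
    refine ⟨nn j, ?_⟩
    intro k hk α x hx
    have hxK : x ∈ K j := hKm hjj (interior_subset (hj₀ hx))
    have hxΩ : x ∈ Ω := hLΩ hx
    have hcont : ContinuousAt (ψ^[nn j]) x :=
      ((iterate_contDiffOn hψ mψ (nn j)).continuousOn).continuousAt (hΩ.mem_nhds hxΩ)
    have e1 : ∀ᶠ y in 𝓝 x, χ j (ψ^[nn j] y) = 1 :=
      hcont.eventually ((eventually_nhdsSet_iff_forall.1 (hχ1 j)) _ ⟨x, hxK, rfl⟩)
    have e2 : ∀ᶠ y in 𝓝 x, ψ^[nn j] y ∈ C j :=
      hcont.eventually (mem_interior_iff_mem_nhds.1 (hKC j ⟨x, hxK, rfl⟩))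
    have e3 : ∀ᶠ y in 𝓝 x, y ∈ Ω := hΩ.mem_nhds hxΩ
    have e4 : (fun y => g (ψ^[nn j] y)) =ᶠ[𝓝 x] u i := by
      filter_upwards [e1, e2, e3] with y h1 h2 h3
      have h4 : g (ψ^[nn j] y) = term j (ψ^[nn j] y) := by
        apply tsum_eq_single
        intro l hl
        apply hterm0
        exact hdisj l j hl _ h2
      rw [h4]
      simp only [hterm, h1, one_smul]
      rw [hFj, iterate_inv mψ hφψ (nn j) y h3]
    rw [pd_congr e4]
    exact hi k hk α x hx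

end Pool.Agent.R805.WCO
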