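import Mathlib
import Pool.Agent.R805.WCO.Gen

/-!
# A volume preserving run-away diffeomorphism of `(ℝ² \ {0}) × ℝ` which is not strongly run-away
-/

set_option autoImplicit false

namespace Pool.Agent.R805.WCO

open Set Filter Topology
open scoped ContDiff

/-- `0` for `3 x² ≤ y²` and `1` for `3 y² ≤ x²` -/
noncomputable def sg (x y : ℝ) : ℝ := Real.smoothTransition (2 * (x ^ 2 / (x ^ 2 + y ^ 2)) - 1 / 2)

/-- a smooth function on the line which vanishes on long intervals and equals `t` on others -/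
noncomputable def HH (t : ℝ) : ℝ := t * Real.smoothTransition (-2 * Real.cos (Real.log (1 + t ^ 2)))

/-- the shear -/
noncomputable def cc (x y : ℝ) : ℝ := HH (-Real.logb 2 |x * y|) * (sg (2 * x) (y / 2) - sg x y)

/-- the map -/
noncomputable def psi (v : E 3) : E 3 := !₂[2 * v 0, v 1 / 2, v 2 + cc (v 0) (v 1)]

/-- its inverse -/
noncomputable def phi (v : E 3) : E 3 := !₂[v 0 / 2, 2 * v 1, v 2 - cc (v 0 / 2) (2 * v 1)]

/-- the domain -/
def Om : Set (E 3) := {v | v 0 ≠ 0 ∨ v 1 ≠ 0}

lemma sg_zero {x y : ℝ} (h : 3 * x ^ 2 ≤ y ^ 2) : sg x y = 0 := by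
  unfold sg
  apply Real.smoothTransition.zero_of_nonpos
  have h1 : x ^ 2 / (x ^ 2 + y ^ 2) ≤ 1 / 4 := by
    rcases eq_or_lt_of_le (add_nonneg (sq_nonneg x) (sq_nonneg y)) with h0 | h0
    · rw [← h0]
      norm_num
    · rw [div_le_iff₀ h0]
      linarith
  linarith

lemma sg_one {x y : ℝ} (hx : x ≠ 0) (h : 3 * y ^ 2 ≤ x ^ 2) : sg x y = 1 := by
  unfold sg
  apply Real.smoothTransition.one_of_one_le
  have h0 : 0 < x ^ 2 + y ^ 2 := by positivity
  have h1 : 3 / 4 ≤ x ^ 2 / (x ^ 2 + y ^ 2) := by
    rw [le_div_iff₀ h0]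
    linarith
  linarith

lemma psi_zero (v : E 3) : psi v 0 = 2 * v 0 := by simp [psi]

lemma psi_one (v : E 3) : psi v 1 = v 1 / 2 := by simp [psi]

lemma psi_two (v : E 3) : psi v 2 = v 2 + cc (v 0) (v 1) := by simp [psi]

lemma phi_zero (v : E 3) : phi v 0 = v 0 / 2 := by simp [phi]

lemma phi_one (v : E 3) : phi v 1 = 2 * v 1 := by simp [phi]

lemma phi_two (v : E 3) : phi v 2 = v 2 - cc (v 0 / 2) (2 * v 1) := by simp [phi]

lemma ext3 {v w : E 3} (h0 : v 0 = w 0) (h1 : v 1 = w 1) (h2 : v 2 = w 2) : v = w := by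
  ext i
  fin_cases i
  · exact h0
  · exact h1
  · exact h2

lemma phi_psi (v : E 3) : phi (psi v) = v := by
  apply ext3
  · rw [phi_zero, psi_zero]
    ring
  · rw [phi_one, psi_one]
    ring
  · rw [phi_two, psi_two, psi_zero, psi_one]
    have e1 : 2 * v 0 / 2 = v 0 := by ring
    have e2 : 2 * (v 1 / 2) = v 1 := by ring
    rw [e1, e2]
    ring

lemma mapsTo_psi : MapsTo psi Om Om := by
  rintro v (h | h)
  · left
    rw [psi_zero]
    positivity
  · right
    rw [psi_one]
    positivity

lemma mapsTo_phi : MapsTo phi Om Om := by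
  rintro v (h | h)
  · left
    rw [phi_zero]
    positivity
  · right
    rw [phi_one]
    positivity

lemma isOpen_Om : IsOpen Om := by
  have h0 : Continuous fun v : E 3 => v 0 := by fun_prop
  have h1 : Continuous fun v : E 3 => v 1 := by fun_prop
  exact (isOpen_ne_fun h0 continuous_const).union (isOpen_ne_fun h1 continuous_const)

lemma iter_psi (n : ℕ) (v : E 3) : (psi^[n] v) 0 = 2 ^ n * v 0 ∧ (psi^[n] v) 1 = v 1 / 2 ^ n ∧
    (psi^[n] v) 2 = v 2 + HH (-Real.logb 2 |v 0 * v 1|) *
      (sg (2 ^ n * v 0) (v 1 / 2 ^ n) - sg (v 0) (v 1)) := by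
  induction n with
  | zero => simp
  | succ n ih =>
    obtain ⟨h0, h1, h2⟩ := ih
    rw [Function.iterate_succ_apply']
    refine ⟨?_, ?_, ?_⟩
    · rw [psi_zero, h0]
      ring
    · rw [psi_one, h1]
      rw [pow_succ]
      field_simp
    · rw [psi_two, h0, h1, h2, cc]
      have e1 : 2 ^ n * v 0 * (v 1 / 2 ^ n) = v 0 * v 1 := by
        field_simp
      have e2 : 2 * (2 ^ n * v 0) = 2 ^ (n + 1) * v 0 := by ring
      have e3 : v 1 / 2 ^ n / 2 = v 1 / 2 ^ (n + 1) := by
        rw [pow_succ]
        field_simp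
      rw [e1, e2, e3]
      ring

/-! ### smoothness -/

lemma contDiff_HH : ContDiff ℝ ∞ HH := by
  unfold HH
  apply contDiff_id.mul
  apply (Real.smoothTransition.contDiff (n := ⊤)).comp
  apply contDiff_const.mul
  apply Real.contDiff_cos.comp
  apply ContDiff.log
  · fun_prop
  · intro x
    positivity

lemma contDiffAt_sg {v : E 3} (a b : ℝ) (ha : a ≠ 0) (hb : b ≠ 0) (hv : v ∈ Om) :
    ContDiffAt ℝ ∞ (fun w : E 3 => sg (a * w 0) (b * w 1)) v := by
  unfold sg
  apply (Real.smoothTransition.contDiff (n := ⊤)).contDiffAt.comp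
  apply ContDiffAt.sub _ contDiffAt_const
  apply contDiffAt_const.mul
  apply ContDiffAt.div
  · fun_prop
  · fun_prop
  · rcases hv with h | h
    · positivity
    · positivity

lemma contDiffAt_cc {v : E 3} (a b : ℝ) (ha : a ≠ 0) (hb : b ≠ 0) (hv : v ∈ Om) :
    ContDiffAt ℝ ∞ (fun w : E 3 => cc (a * w 0) (b * w 1)) v := by
  have c0 : Continuous fun w : E 3 => w 0 := by fun_prop
  have c1 : Continuous fun w : E 3 => w 1 := by fun_prop
  by_cases h0 : v 0 = 0
  · have h1 : v 1 ≠ 0 := by
      rcases hv with h | h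
      · exact absurd h0 h
      · exact h
    -- near `v` the difference of the two values of `sg` is zero
    have hev : ∀ᶠ w : E 3 in 𝓝 v, 3 * (2 * (a * w 0)) ^ 2 < (b * w 1 / 2) ^ 2 ∧
        3 * (a * w 0) ^ 2 < (b * w 1) ^ 2 := by
      apply Filter.Eventually.and
      · apply ContinuousAt.eventually_lt
        · fun_prop
        · fun_prop
        · rw [h0]
          have : 0 < (b * v 1 / 2) ^ 2 := by positivity
          simpa using this
      · apply ContinuousAt.eventually_lt
        · fun_prop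
        · fun_prop
        · rw [h0]
          have : 0 < (b * v 1) ^ 2 := by positivity
          simpa using this
    have h2 : (fun w : E 3 => cc (a * w 0) (b * w 1)) =ᶠ[𝓝 v] fun _ => 0 := by
      filter_upwards [hev] with w hw
      rw [cc, sg_zero hw.1.le, sg_zero hw.2.le, sub_zero, mul_zero]
    exact contDiffAt_const.congr_of_eventuallyEq h2
  · by_cases h1 : v 1 = 0
    · have hev : ∀ᶠ w : E 3 in 𝓝 v, 3 * (b * w 1 / 2) ^ 2 < (2 * (a * w 0)) ^ 2 ∧
          3 * (b * w 1) ^ 2 < (a * w 0) ^ 2 := by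
        apply Filter.Eventually.and
        · apply ContinuousAt.eventually_lt
          · fun_prop
          · fun_prop
          · rw [h1]
            have : 0 < (2 * (a * v 0)) ^ 2 := by positivity
            simpa using this
        · apply ContinuousAt.eventually_lt
          · fun_prop
          · fun_prop
          · rw [h1]
            have : 0 < (a * v 0) ^ 2 := by positivity
            simpa using this
      have hne : ∀ᶠ w : E 3 in 𝓝 v, w 0 ≠ 0 := c0.continuousAt.eventually_ne h0
      have h2 : (fun w : E 3 => cc (a * w 0) (b * w 1)) =ᶠ[𝓝 v] fun _ => 0 := by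
        filter_upwards [hev, hne] with w hw hw0
        rw [cc, sg_one (by positivity) hw.1.le, sg_one (by positivity) hw.2.le, sub_self, mul_zero]
      exact contDiffAt_const.congr_of_eventuallyEq h2
    · unfold cc
      apply ContDiffAt.mul
      · apply contDiff_HH.contDiffAt.comp
        apply ContDiffAt.neg
        simp only [Real.logb, Real.log_abs]
        apply ContDiffAt.div_const
        apply ContDiffAt.log
        · fun_prop
        · positivity
      · apply ContDiffAt.sub
        · have e1 : (fun w : E 3 => sg (2 * (a * w 0)) (b * w 1 / 2)) =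
              fun w : E 3 => sg ((2 * a) * w 0) ((b / 2) * w 1) := by
            funext w
            congr 1 <;> ring
          rw [e1]
          exact contDiffAt_sg (2 * a) (b / 2) (by positivity) (by positivity) hv
        · exact contDiffAt_sg a b ha hb hv

lemma contDiffOn_psi : ContDiffOn ℝ ∞ psi Om := by
  rw [contDiffOn_euclidean]
  intro i
  fin_cases i
  · simp only [Fin.zero_eta, psi_zero]
    fun_prop
  · simp only [Fin.mk_one, psi_one]
    fun_prop
  · simp only [Fin.reduceFinMk, psi_two]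
    apply ContDiffOn.add
    · fun_prop
    · intro v hv
      have := (contDiffAt_cc 1 1 one_ne_zero one_ne_zero hv).contDiffWithinAt (s := Om)
      simpa only [one_mul] using this

lemma contDiffOn_phi : ContDiffOn ℝ ∞ phi Om := by
  rw [contDiffOn_euclidean]
  intro i
  fin_cases i
  · simp only [Fin.zero_eta, phi_zero]
    fun_prop
  · simp only [Fin.mk_one, phi_one]
    fun_prop
  · simp only [Fin.reduceFinMk, phi_two]
    apply ContDiffOn.sub
    · fun_prop
    · intro v hv
      have := (contDiffAt_cc (1 / 2) 2 (by norm_num) two_ne_zero hv).contDiffWithinAt (s := Om)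
      refine this.congr ?_ ?_
      · intro w _
        congr 1
        ring
      · congr 1
        ring

/-! ### the intervals of `HH` -/

lemma log_interval (M : ℝ) (hM : 0 ≤ M) : ∀ᶠ A : ℝ in atTop, ∀ t, A ≤ t → t ≤ A + M →
    2 * Real.log A ≤ Real.log (1 + t ^ 2) ∧ Real.log (1 + t ^ 2) ≤ 2 * Real.log A + 1 := by
  filter_upwards [eventually_ge_atTop (4 * M + 4)] with A hA t h1 h2
  have hA4 : 4 ≤ A := by linarith
  have e1 : 2 * Real.log A = Real.log (A ^ 2) := by
    rw [Real.log_pow]
    norm_num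
  rw [e1]
  constructor
  · apply Real.log_le_log (by positivity)
    nlinarith
  · have e2 : Real.log (A ^ 2) + 1 = Real.log (A ^ 2 * Real.exp 1) := by
      rw [Real.log_mul (by positivity) (by positivity), Real.log_exp]
    rw [e2]
    apply Real.log_le_log (by positivity)
    have h3 : (2 : ℝ) ≤ Real.exp 1 := by
      have := Real.add_one_le_exp (1 : ℝ)
      linarith
    have h4 : t ≤ 5 / 4 * A := by linarith
    have h5 : t ^ 2 ≤ (5 / 4 * A) ^ 2 := by
      apply pow_le_pow_left₀ (by linarith) h4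
    have h6 : (16 : ℝ) ≤ A ^ 2 := by nlinarith
    nlinarith

/-- `HH` vanishes on arbitrarily long intervals, arbitrarily far away -/
lemma HH_zero (M B : ℝ) (hM : 0 ≤ M) : ∃ A : ℝ, B ≤ A ∧ ∀ t, A ≤ t → t ≤ A + M → HH t = 0 := by
  obtain ⟨A₀, hA₀⟩ := (log_interval M hM).exists_forall_of_atTop
  obtain ⟨j, hj⟩ := exists_nat_ge (max (max A₀ B) 0)
  set A := Real.exp (Real.pi * j) with hA
  have hjA : (j : ℝ) ≤ A := by
    have h1 := Real.add_one_le_exp (Real.pi * j)
    have h2 : (j : ℝ) ≤ Real.pi * j := by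
      have := Real.pi_gt_three
      have hj0 : (0 : ℝ) ≤ j := Nat.cast_nonneg j
      nlinarith
    linarith
  refine ⟨A, le_trans (le_trans (le_max_right _ _) (le_max_left _ _)) (hj.trans hjA), ?_⟩
  intro t h1 h2
  obtain ⟨h3, h4⟩ := hA₀ A (le_trans (le_trans (le_max_left _ _) (le_max_left _ _)) (hj.trans hjA))
    t h1 h2
  rw [hA, Real.log_exp] at h3 h4
  unfold HH
  rw [Real.smoothTransition.zero_of_nonpos, mul_zero]
  have h5 : 0 ≤ Real.cos (Real.log (1 + t ^ 2)) := by
    have h6 : Real.cos (Real.log (1 + t ^ 2)) =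
        Real.cos (Real.log (1 + t ^ 2) - j * (2 * Real.pi)) := by
      rw [Real.cos_sub_nat_mul_two_pi]
    rw [h6]
    apply Real.cos_nonneg_of_neg_pi_div_two_le_of_le
    · have := Real.pi_pos
      nlinarith
    · have := Real.pi_gt_three
      nlinarith
  linarith

/-- `HH t = t` on arbitrarily long intervals, arbitrarily far away -/
lemma HH_self (M B : ℝ) (hM : 0 ≤ M) : ∃ A : ℝ, B ≤ A ∧ ∀ t, A ≤ t → t ≤ A + M → HH t = t := by
  obtain ⟨A₀, hA₀⟩ := (log_interval M hM).exists_forall_of_atTop
  obtain ⟨j, hj⟩ := exists_nat_ge (max (max A₀ B) 0)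
  set A := Real.exp (Real.pi * j + Real.pi / 2) with hA
  have hjA : (j : ℝ) ≤ A := by
    have h1 := Real.add_one_le_exp (Real.pi * j + Real.pi / 2)
    have h2 : (j : ℝ) ≤ Real.pi * j := by
      have := Real.pi_gt_three
      have hj0 : (0 : ℝ) ≤ j := Nat.cast_nonneg j
      nlinarith
    have := Real.pi_pos
    linarith
  refine ⟨A, le_trans (le_trans (le_max_right _ _) (le_max_left _ _)) (hj.trans hjA), ?_⟩
  intro t h1 h2
  obtain ⟨h3, h4⟩ := hA₀ A (le_trans (le_trans (le_max_left _ _) (le_max_left _ _)) (hj.trans hjA))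
    t h1 h2
  rw [hA, Real.log_exp] at h3 h4
  unfold HH
  rw [Real.smoothTransition.one_of_one_le, mul_one]
  have h5 : Real.cos (Real.log (1 + t ^ 2)) =
      -Real.cos (Real.log (1 + t ^ 2) - j * (2 * Real.pi) - Real.pi) := by
    rw [Real.cos_sub_pi, neg_neg, Real.cos_sub_nat_mul_two_pi]
  have h6 : 1 / 2 ≤ Real.cos (Real.log (1 + t ^ 2) - j * (2 * Real.pi) - Real.pi) := by
    rw [← Real.cos_pi_div_three]
    apply Real.cos_le_cos_of_nonneg_of_le_pi
    · nlinarith
    · have := Real.pi_pos
      linarith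
    · have := Real.pi_gt_three
      nlinarith
  rw [h5]
  linarith

end Pool.Agent.R805.WCO
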